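import Pool.Agent.N856.JL.Stm
import Pool.Agent.Y405.CQ.MER

/-!
# JL-MER: Mertens' theorem in a reduced class (helper814, after helper19)
-/

set_option autoImplicit false

open scoped Classical

namespace Pool.Agent.N814.JL.MER

open Finset
open Pool.Agent.N856.JL (S_MEQ)

theorem t_MEQ : S_MEQ := by
  intro Q a hQ ha
  have ha' : (a % Q).Coprime Q := by
    rw [Nat.coprime_iff_gcd_eq_one, ← Nat.gcd_rec, Nat.gcd_comm]
    exact ha
  obtain ⟨C, -, hC⟩ := Pool.Agent.Y405.CQ.mertens_ap Q hQ (a % Q) (Nat.mod_lt _ (by omega)) ha'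
  refine ⟨C, fun y hy => ?_⟩
  have h1 := hC y hy
  have h3 : (range (y + 1)).filter (fun p => p.Prime ∧ p % Q = a % Q) =
      (Icc 1 y).filter (fun p => p.Prime ∧ p % Q = a % Q) := by
    ext p
    rw [mem_filter, mem_filter, mem_range, mem_Icc]
    constructor
    · rintro ⟨g1, g2, g3⟩
      exact ⟨⟨g2.one_lt.le, by omega⟩, g2, g3⟩
    · rintro ⟨⟨g0, g1⟩, g2, g3⟩
      exact ⟨by omega, g2, g3⟩
  rw [h3]
  exact_mod_cast h1

end Pool.Agent.N814.JL.MER
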